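import Mathlib
import Pool.Agent.Y627.SP.All

set_option autoImplicit false

namespace Pool.Agent.Results.MP_b52a92_nt.AllDegrees

open Polynomial

/-- The naive height of an integer polynomial: the maximum absolute value of its coefficients. -/
def height (P : ℤ[X]) : ℕ := P.support.sup (fun i => (P.coeff i).natAbs)

/-- `P` is the minimal polynomial over the integers of the real number `α`: the primitive integer
polynomial of least positive degree with positive leading coefficient that vanishes at `α`. -/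
def IsMinimalPolynomial (P : ℤ[X]) (α : ℝ) : Prop :=
  P.IsPrimitive ∧ 0 < P.leadingCoeff ∧ 0 < P.natDegree ∧ aeval α P = 0 ∧
    ∀ Q : ℤ[X], Q ≠ 0 → aeval α Q = 0 → P.natDegree ≤ Q.natDegree

/-- `𝒦_n^*(τ)`: the real `ξ` with `|ξ - α| < H(α) ^ (-τ (n + 1))` for infinitely many real
algebraic numbers `α` of degree at most `n`. -/
def K (n : ℕ) (τ : ℝ) : Set ℝ :=
  {ξ : ℝ | {α : ℝ | ∃ P : ℤ[X], IsMinimalPolynomial P α ∧ P.natDegree ≤ n ∧
    |ξ - α| < (height P : ℝ) ^ (-(τ * (n + 1)))}.Infinite}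

/-- The real `ξ` with `|ξ - α| < H(α) ^ (-τ (n + 1))` for infinitely many real algebraic numbers
`α` of degree exactly `n`. -/
def KExactDegree (n : ℕ) (τ : ℝ) : Set ℝ :=
  {ξ : ℝ | {α : ℝ | ∃ P : ℤ[X], IsMinimalPolynomial P α ∧ P.natDegree = n ∧
    |ξ - α| < (height P : ℝ) ^ (-(τ * (n + 1)))}.Infinite}

/-- The exact order of approximation of `ξ` in degree at most `n`, in the extended reals: the
supremum of the `σ ≥ 1` with `ξ ∈ 𝒦_n^*(σ)`. -/
noncomputable def exactOrder (n : ℕ) (ξ : ℝ) : EReal :=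
  sSup {W : EReal | ∃ σ : ℝ, 1 ≤ σ ∧ W = (σ : EReal) ∧ ξ ∈ K n σ}

/-- The same supremum taken over all real `σ`. -/
noncomputable def exactOrderAll (n : ℕ) (ξ : ℝ) : EReal :=
  sSup {W : EReal | ∃ σ : ℝ, W = (σ : EReal) ∧ ξ ∈ K n σ}

/-- `𝒲_n^*(τ)`: the real numbers of exact order `τ` in degree at most `n`. -/
def W (n : ℕ) (τ : ℝ) : Set ℝ := {ξ | exactOrder n ξ = (τ : EReal)}

/-- The variant of `𝒲_n^*(τ)` with the supremum over all real `σ`. -/
def WAll (n : ℕ) (τ : ℝ) : Set ℝ := {ξ | exactOrderAll n ξ = (τ : EReal)}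

/-- Mahler's exponent `w_n(ξ)`, in the extended reals. -/
noncomputable def mahler (n : ℕ) (ξ : ℝ) : EReal :=
  sSup {W : EReal | ∃ w : ℝ, W = (w : EReal) ∧
    {P : ℤ[X] | P.natDegree ≤ n ∧ 0 < |aeval ξ P| ∧
      |aeval ξ P| ≤ (height P : ℝ) ^ (-w)}.Infinite}

/-- The orders `τ_n`, `n ∈ S`, are compatible: `(n + 1) τ_n` is non-decreasing on `S`. -/
def Compatible (S : Set ℕ) (τ : ℕ → ℝ) : Prop :=
  ∀ m ∈ S, ∀ n ∈ S, m ≤ n → τ m * (m + 1) ≤ τ n * (n + 1)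

/-- The transcendental numbers of exact order `τ_n` in every degree `n ∈ S`, for which moreover
order `τ_n` is attained by algebraic numbers of degree exactly `n`, and Mahler's exponent is
`w_n(ξ) = τ_n (n + 1) - 1`, for every `n ∈ S`. -/
def Simultaneous (S : Set ℕ) (τ : ℕ → ℝ) : Set ℝ :=
  {ξ : ℝ | Transcendental ℚ ξ ∧ ∀ n ∈ S, ξ ∈ W n (τ n) ∧ ξ ∈ WAll n (τ n) ∧
    ξ ∈ KExactDegree n (τ n) ∧ mahler n ξ = ((τ n * (n + 1) - 1 : ℝ) : EReal)}

lemma order_eq (n : ℕ) (ξ τ w : ℝ) (hτ : 1 ≤ τ) (hw : w = τ * (n + 1) - 1)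
    (h1 : ∀ v : ℝ, w < v → {α : ℝ | ∃ P : ℤ[X], Pool.Agent.W71.MinPolyZ P α ∧ P.natDegree ≤ n ∧
      |ξ - α| ≤ (Pool.Agent.W71.hgt P : ℝ) ^ (-v - 1)}.Finite)
    (h2 : {α : ℝ | ∃ P : ℤ[X], Pool.Agent.W71.MinPolyZ P α ∧ P.natDegree ≤ n ∧
      |ξ - α| < (Pool.Agent.W71.hgt P : ℝ) ^ (-(1 + w))}.Infinite) :
    ξ ∈ W n τ ∧ ξ ∈ WAll n τ := by
  have hn : (0 : ℝ) < (n : ℝ) + 1 := by positivity
  have hmem : ξ ∈ K n τ := by
    have e1 : -(1 + w) = -(τ * (n + 1)) := by rw [hw]; ring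
    rw [e1] at h2
    exact h2
  have hup : ∀ σ : ℝ, ξ ∈ K n σ → σ ≤ τ := by
    intro σ hσ
    by_contra hcon
    push Not at hcon
    apply hσ
    apply (h1 (σ * (n + 1) - 1) (by rw [hw]; nlinarith)).subset
    rintro α ⟨P, hP, hdeg, hlt⟩
    refine ⟨P, hP, hdeg, ?_⟩
    have e1 : -(σ * ((n : ℝ) + 1) - 1) - 1 = -(σ * (n + 1)) := by ring
    rw [e1]
    exact hlt.le
  constructor
  · apply le_antisymm
    · apply sSup_le
      rintro x ⟨σ, -, rfl, hσ⟩
      exact_mod_cast hup σ hσ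
    · exact le_sSup ⟨τ, hτ, rfl, hmem⟩
  · apply le_antisymm
    · apply sSup_le
      rintro x ⟨σ, rfl, hσ⟩
      exact_mod_cast hup σ hσ
    · exact le_sSup ⟨τ, rfl, hmem⟩

lemma K_transfer {n n' : ℕ} (h : n' ≤ n) (ξ σ : ℝ) (hξ : ξ ∈ K n' σ) :
    ξ ∈ K n (σ * (n' + 1) / (n + 1)) := by
  have hn : (0 : ℝ) < (n : ℝ) + 1 := by positivity
  refine Set.Infinite.mono ?_ hξ
  rintro α ⟨P, hP, hdeg, hlt⟩
  refine ⟨P, hP, hdeg.trans h, ?_⟩
  have e1 : σ * ((n' : ℝ) + 1) / (n + 1) * (n + 1) = σ * (n' + 1) := by field_simp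
  rw [e1]
  exact hlt

lemma mono_W {m n : ℕ} (h : m ≤ n) (ξ τm τn : ℝ) (hτ : 1 ≤ τn) (h1 : ξ ∈ W m τm)
    (h2 : ξ ∈ W n τn) : τm * (m + 1) ≤ τn * (n + 1) := by
  have hn1 : (0 : ℝ) < (n : ℝ) + 1 := by positivity
  have hm1 : (0 : ℝ) < (m : ℝ) + 1 := by positivity
  by_contra hcon
  push Not at hcon
  have hs : ((τn * (n + 1) / (m + 1) : ℝ) : EReal) < exactOrder m ξ := by
    rw [show exactOrder m ξ = (τm : EReal) from h1]
    rw [EReal.coe_lt_coe_iff, div_lt_iff₀ hm1]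
    exact hcon
  obtain ⟨x, ⟨σ, hσ1, rfl, hσ⟩, hlt⟩ := lt_sSup_iff.1 hs
  rw [EReal.coe_lt_coe_iff, div_lt_iff₀ hm1] at hlt
  have h3 : τn < σ * (m + 1) / (n + 1) := by rw [lt_div_iff₀ hn1]; exact hlt
  have h4 : ((σ * (m + 1) / (n + 1) : ℝ) : EReal) ≤ exactOrder n ξ :=
    le_sSup ⟨_, by linarith, rfl, K_transfer h ξ σ hσ⟩
  rw [show exactOrder n ξ = (τn : EReal) from h2, EReal.coe_le_coe_iff] at h4
  linarith

lemma mono_WAll {m n : ℕ} (h : m ≤ n) (ξ τm τn : ℝ) (h1 : ξ ∈ WAll m τm)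
    (h2 : ξ ∈ WAll n τn) : τm * (m + 1) ≤ τn * (n + 1) := by
  have hn1 : (0 : ℝ) < (n : ℝ) + 1 := by positivity
  have hm1 : (0 : ℝ) < (m : ℝ) + 1 := by positivity
  by_contra hcon
  push Not at hcon
  have hs : ((τn * (n + 1) / (m + 1) : ℝ) : EReal) < exactOrderAll m ξ := by
    rw [show exactOrderAll m ξ = (τm : EReal) from h1]
    rw [EReal.coe_lt_coe_iff, div_lt_iff₀ hm1]
    exact hcon
  obtain ⟨x, ⟨σ, rfl, hσ⟩, hlt⟩ := lt_sSup_iff.1 hs
  rw [EReal.coe_lt_coe_iff, div_lt_iff₀ hm1] at hlt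
  have h3 : τn < σ * (m + 1) / (n + 1) := by rw [lt_div_iff₀ hn1]; exact hlt
  have h4 : ((σ * (m + 1) / (n + 1) : ℝ) : EReal) ≤ exactOrderAll n ξ :=
    le_sSup ⟨_, rfl, K_transfer h ξ σ hσ⟩
  rw [show exactOrderAll n ξ = (τn : EReal) from h2, EReal.coe_le_coe_iff] at h4
  linarith

/-- extension of a compatible family to all degrees -/
lemma exists_seq (S : Set ℕ) (τ : ℕ → ℝ) (hS : ∀ n ∈ S, 1 ≤ n ∧ 1 ≤ τ n)
    (hc : Compatible S τ) : ∃ w : ℕ → ℝ, (∀ n : ℕ, 1 ≤ n → (n : ℝ) ≤ w n) ∧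
      (∀ i j : ℕ, 1 ≤ i → i ≤ j → w i ≤ w j) ∧ ∀ n ∈ S, w n = τ n * (n + 1) - 1 := by
  classical
  have hne : ∀ n : ℕ, (Finset.range (n + 1)).Nonempty := fun n => ⟨0, by simp⟩
  set f : ℕ → ℕ → ℝ := fun n m => if m ∈ S then max (n : ℝ) (τ m * (m + 1) - 1) else n with hf
  have hfn : ∀ n m : ℕ, (n : ℝ) ≤ f n m := by
    intro n m
    simp only [hf]
    split_ifs
    · exact le_max_left _ _
    · exact le_rfl
  set w : ℕ → ℝ := fun n => (Finset.range (n + 1)).sup' (hne n) (f n) with hw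
  have hle : ∀ n m, m ≤ n → f n m ≤ w n := fun n m hm =>
    Finset.le_sup' (f n) (Finset.mem_range.2 (by omega))
  refine ⟨w, fun n _ => (hfn n 0).trans (hle n 0 (Nat.zero_le _)), ?_, ?_⟩
  · intro i j _ hij
    apply Finset.sup'_le
    intro m hm
    rw [Finset.mem_range] at hm
    refine le_trans ?_ (hle j m (by omega))
    have hijR : (i : ℝ) ≤ j := by exact_mod_cast hij
    simp only [hf]
    split_ifs
    · exact max_le_max hijR le_rfl
    · exact hijR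
  · intro n hn
    obtain ⟨hn1, hτ⟩ := hS n hn
    have hn0 : (0 : ℝ) ≤ n := Nat.cast_nonneg n
    have hnτ : (n : ℝ) ≤ τ n * (n + 1) - 1 := by nlinarith
    apply le_antisymm
    · apply Finset.sup'_le
      intro m hm
      rw [Finset.mem_range] at hm
      simp only [hf]
      split_ifs with hmS
      · apply max_le hnτ
        have := hc m hmS n hn (by omega)
        linarith
      · exact hnτ
    · have := hle n n le_rfl
      simp only [hf, if_pos hn] at this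
      exact (le_max_right _ _).trans this

lemma exists_simultaneous (av : ℕ → ℝ) (S : Set ℕ) (τ : ℕ → ℝ) (hS : ∀ n ∈ S, 1 ≤ n ∧ 1 ≤ τ n)
    (hc : Compatible S τ) : ∃ ξ ∈ Simultaneous S τ, ∀ k, ξ ≠ av k := by
  obtain ⟨w, hw1, hw2, hw3⟩ := exists_seq S τ hS hc
  obtain ⟨ξ, h0, h1, h2, h3⟩ := Pool.Agent.Y627.SP.all_deg av w hw1 hw2
  have hroot := Pool.Agent.Y627.SP.no_root ξ w h1
  refine ⟨ξ, ⟨Pool.Agent.Y627.SP.trans_of_no_root ξ hroot, ?_⟩, h0⟩
  intro n hn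
  obtain ⟨hn1, hτ⟩ := hS n hn
  have hn0 : (1 : ℝ) ≤ n := by exact_mod_cast hn1
  have hwn := hw3 n hn
  have hwpos : 0 < w n := by have := hw1 n hn1; linarith
  have h3n := h3 n hn1
  obtain ⟨h4, h5⟩ := order_eq n ξ (τ n) (w n) hτ hwn (h2 n hn1)
    (h3n.mono (by rintro α ⟨P, hP, hdeg, hlt⟩; exact ⟨P, hP, hdeg.le, hlt⟩))
  refine ⟨h4, h5, ?_, ?_⟩
  · have e1 : -(1 + w n) = -(τ n * (n + 1)) := by rw [hwn]; ring
    rw [e1] at h3n
    exact h3n
  · rw [← hwn]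
    exact le_antisymm (Pool.Agent.W71.wM_le ξ (w n) (h1 n hn1))
      (Pool.Agent.Y627.SP.wM_ge ξ (w n) hwpos hroot h3n)

/-- (A) For every set `S` of positive degrees (finite or infinite) and all real orders `τ_n ≥ 1`,
`n ∈ S`: the intersection of the sets `𝒲_n^*(τ_n)`, `n ∈ S`, is non-empty if and only if
`(n + 1) τ_n` is non-decreasing on `S`; the same holds for the variant of these sets in which the
supremum runs over all real `σ`.
(B) In that case the set of transcendental numbers that lie in all these sets (in both variants),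
for which order `τ_n` is attained by algebraic numbers of degree exactly `n`, and for which
Mahler's exponent is also `w_n = τ_n (n + 1) - 1`, for every `n ∈ S`, is uncountable.
(C) In particular, for positive integers `n ≠ n'` and `τ' > τ ≥ 1`, the intersection
`𝒲_n^*(τ) ∩ 𝒲_{n'}^*(τ')` is non-empty if and only if `n < n'` or `τ' (n' + 1) ≤ τ (n + 1)`. -/
theorem result :
    (∀ (S : Set ℕ) (τ : ℕ → ℝ), (∀ n ∈ S, 1 ≤ n ∧ 1 ≤ τ n) →
      ((⋂ n ∈ S, W n (τ n)).Nonempty ↔ Compatible S τ) ∧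
      ((⋂ n ∈ S, WAll n (τ n)).Nonempty ↔ Compatible S τ) ∧
      (Compatible S τ → ¬ (Simultaneous S τ).Countable)) ∧
    (∀ n n' : ℕ, 1 ≤ n → 1 ≤ n' → n ≠ n' → ∀ τ τ' : ℝ, 1 ≤ τ → τ < τ' →
      ((W n τ ∩ W n' τ').Nonempty ↔ (n < n' ∨ τ' * (n' + 1) ≤ τ * (n + 1))) ∧
      ((WAll n τ ∩ WAll n' τ').Nonempty ↔ (n < n' ∨ τ' * (n' + 1) ≤ τ * (n + 1)))) := by
  classical
  have hA : ∀ (S : Set ℕ) (τ : ℕ → ℝ), (∀ n ∈ S, 1 ≤ n ∧ 1 ≤ τ n) →
      ((⋂ n ∈ S, W n (τ n)).Nonempty ↔ Compatible S τ) ∧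
      ((⋂ n ∈ S, WAll n (τ n)).Nonempty ↔ Compatible S τ) ∧
      (Compatible S τ → ¬ (Simultaneous S τ).Countable) := by
    intro S τ hS
    refine ⟨⟨?_, ?_⟩, ⟨?_, ?_⟩, ?_⟩
    · rintro ⟨ξ, hξ⟩ m hm n hn hmn
      simp only [Set.mem_iInter] at hξ
      exact mono_W hmn ξ _ _ (hS n hn).2 (hξ m hm) (hξ n hn)
    · intro hc
      obtain ⟨ξ, hξ, -⟩ := exists_simultaneous (fun _ => 0) S τ hS hc
      refine ⟨ξ, ?_⟩
      simp only [Set.mem_iInter]
      exact fun n hn => (hξ.2 n hn).1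
    · rintro ⟨ξ, hξ⟩ m hm n hn hmn
      simp only [Set.mem_iInter] at hξ
      exact mono_WAll hmn ξ _ _ (hξ m hm) (hξ n hn)
    · intro hc
      obtain ⟨ξ, hξ, -⟩ := exists_simultaneous (fun _ => 0) S τ hS hc
      refine ⟨ξ, ?_⟩
      simp only [Set.mem_iInter]
      exact fun n hn => (hξ.2 n hn).2.1
    · intro hc hcount
      obtain ⟨av, hav⟩ := (hcount.union (Set.countable_singleton (0 : ℝ))).exists_eq_range
        ⟨0, Or.inr rfl⟩
      obtain ⟨ξ, hξ, hne⟩ := exists_simultaneous av S τ hS hc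
      have : ξ ∈ Set.range av := by rw [← hav]; exact Or.inl hξ
      obtain ⟨k, hk⟩ := this
      exact hne k hk.symm
  refine ⟨hA, ?_⟩
  intro n n' hn hn' hne τ τ' hτ hττ'
  have hn0 : (1 : ℝ) ≤ n := by exact_mod_cast hn
  have hn0' : (1 : ℝ) ≤ n' := by exact_mod_cast hn'
  set τs : ℕ → ℝ := fun k => if k = n then τ else τ' with hτs
  have h1 : τs n = τ := by simp [hτs]
  have h2 : τs n' = τ' := by simp [hτs, Ne.symm hne]
  obtain ⟨h3, h4, -⟩ := hA {n, n'} τs (by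
    intro k hk
    rcases hk with rfl | hk
    · exact ⟨hn, by rw [h1]; exact hτ⟩
    · rw [Set.mem_singleton_iff] at hk
      subst hk
      exact ⟨hn', by rw [h2]; linarith⟩)
  have hcomp : Compatible {n, n'} τs ↔ (n < n' ∨ τ' * (n' + 1) ≤ τ * (n + 1)) := by
    constructor
    · intro hc
      rcases lt_or_gt_of_ne hne with hlt | hgt
      · exact Or.inl hlt
      · right
        have := hc n' (by simp) n (by simp) hgt.le
        rwa [h1, h2] at this
    · intro h k hk l hl hkl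
      rcases hk with rfl | hk
      · rcases hl with rfl | hl
        · exact le_rfl
        · rw [Set.mem_singleton_iff] at hl
          subst hl
          rw [h1, h2]
          have : (k : ℝ) ≤ l := by exact_mod_cast hkl
          nlinarith
      · rw [Set.mem_singleton_iff] at hk
        subst hk
        rcases hl with rfl | hl
        · rw [h1, h2]
          rcases h with h | h
          · omega
          · exact h
        · rw [Set.mem_singleton_iff] at hl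
          subst hl
          exact le_rfl
  have e1 : (⋂ k ∈ ({n, n'} : Set ℕ), W k (τs k)) = W n τ ∩ W n' τ' := by
    rw [Set.biInter_insert, Set.biInter_singleton, h1, h2]
  have e2 : (⋂ k ∈ ({n, n'} : Set ℕ), WAll k (τs k)) = WAll n τ ∩ WAll n' τ' := by
    rw [Set.biInter_insert, Set.biInter_singleton, h1, h2]
  rw [e1, hcomp] at h3
  rw [e2, hcomp] at h4
  exact ⟨h3, h4⟩

end Pool.Agent.Results.MP_b52a92_nt.AllDegrees
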